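import Pool.Agent.U191.FK.Lift

/-!
# Orthogonal lifts of homologically trivial cycles on quotients of products of curves

`𝒱` is a class of smooth projective geometrically irreducible varieties over the field `k ⊆ ℂ` closed
under products (for the problem: all of them, over the algebraic closure `k` of `ℚ`), `C` the Chow
groups with rational coefficients, `H` a Weil cohomology theory with complex coefficients and `D` the
Hodge decompositions (singular cohomology).

`L X m z` means: `z` is a homologically trivial class of codimension `m` on `X` which has orthogonal
lifts, that is, for some number field `E ⊆ k` both `X` and `z` come from a variety `X_E` and a class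
`z_E` on it, and `z_E` has a lift orthogonal to all fibral classes to a regular proper flat model of
`X_E` (or, if no such model is known to exist, of an alteration of `X_E` over a finite extension of
`E`). The class `z_E` has then such lifts to all regular proper flat models of all forms `X_E` over
number fields. Only the formal properties `LiftTheory` of `L` are used: stability under
correspondences, and the theorem for curves. They hold for the algebraically trivial classes, too, and
the theorem says in particular that the homologically trivial classes below are algebraically trivial.

Let `X = C_1 × ⋯ × C_n × B`, where `B` has dimension zero and the `C_i` are curves with actions of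
finite groups `G_i`, all irreducible characters of which have values in a number field `K` which is
totally real (for example symmetric and dihedral groups, and all other groups whose elements are
conjugate to their inverses), or imaginary quadratic, or a CM field of degree four. A pair `(V, e)` of
level at most `ℓ` is one of the following: `(X, e)` with `e = ∑ a(γ) [γ]`, where `a` is an element of
the rational group algebra of `G_1 × ⋯ × G_n` which is zero on `H^{p,q}(X)` for `|p - q| > ℓ`; or
`(Y, Δ)`, where `Y` is a quotient of `X`, or a direct summand cut out by an element of the group
algebra, of Hodge level at most `ℓ`.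

**Theorem.** (1) Let `(Z, p)` be a motive built from motives of level at most two. Then all
homologically trivial cycles on `(Z, p)` have orthogonal lifts. In particular this holds for varieties
`Z` whose diagonal is built from such motives.

(2) Let `Y` be a quotient of `X`, or a direct summand of the same dimension which is cut out by an
element of the group algebra, such that `H^{p,q}(Y) = 0` if `|p - q| > 2` and `min (p, q) < c`. Then
all homologically trivial cycles of dimension at most `c` on `Y` have orthogonal lifts.

(3) (1) and (2) hold with `ℓ` in place of `2`, if all homologically trivial cycles on products of at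
most `ℓ` curves have orthogonal lifts.
-/

set_option autoImplicit false

open CategoryTheory AlgebraicGeometry

universe u v

namespace Pool.Agent.Results.MP_62d77c_ag.CurveQuotients

open Pool.Agent.H914 Pool.Agent.H914.VarClass Pool.Agent.H914.VarClass.Obj Pool.Agent.W492.BB
  Pool.Agent.TH133 Pool.Agent.U191.EY Pool.Agent.U191.FL

/-- **Orthogonal lifts of homologically trivial cycles** on motives and varieties built from products
of curves with actions of finite groups: `ℓ = 2`, or any `ℓ` such that the homologically trivial
cycles on the products of at most `ℓ` curves have orthogonal lifts. -/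
theorem result {k : Type u} [Field k] {𝒱 : VarClass k} {C : TheoryData.{u, v, 0} 𝒱 ℚ}
    [IsChowProj C] {H : WeilTheoryData.{u, v, 0} C ℂ} [IsWeilProj H]
    {D : ∀ V : 𝒱.Obj, HodgeRing (H.A V)} (hD : IsHodgeTheory H D) (hN : KimuraTheorem H)
    (hF : ClassicalFacts H) {L : ∀ X : 𝒱.Obj, ℤ → C.A X → Prop} (hL : LiftTheory H L) (ℓ : ℕ)
    (hℓ : ℓ = 2 ∨ ∀ (W : 𝒱.Obj) (j : ℤ) (z : C.A W), IsShortProduct ℓ W → IsHomTrivial H j z →
      L W j z) :
    (∀ (Z : 𝒱.Obj) (p : C.A (Z.prod Z)), IsBuiltOfLevel H D ℓ p → ∀ (m : ℤ) (z : C.A Z),
        IsHomTrivial H m z → L Z m (C.act p z)) ∧
      ∀ (B : 𝒱.Obj) (G : List (GCurve 𝒱)) (Y : 𝒱.Obj) (c : ℕ), B.dim = 0 → AreGood H D G →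
        IsCut C B G Y → Y.dim = (prodL B G).dim → HasLevel (D Y) ℓ c →
          ∀ (m : ℤ) (z : C.A Y), (Y.dim : ℤ) ≤ m + c → IsHomTrivial H m z → L Y m z := by
  have h : ∀ W : 𝒱.Obj, IsShortProduct ℓ W → ∀ j z, IsHomTrivial H j z → L W j z := by
    rcases hℓ with rfl | h
    · exact fun W hW j z hz => hL.two hF hW hz
    · exact fun W hW j z hz => h W j z hW hz
  exact ⟨fun _ _ hZ _ _ hz => lift_of_level hD hN hL h hZ hz,
    fun _ _ _ _ hB hG hY hdim hl _ _ hm hz => lift_of_mixed hD hN hL hF h hB hG hY hdim hl hm hz⟩

end Pool.Agent.Results.MP_62d77c_ag.CurveQuotients
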