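import Pool.Agent.U227.MdlFix

/-!
# Lifts orthogonal to fibral cycles on regular models with a group action

Let a finite group `G` act on a regular proper flat model of `X` over the ring of integers. It acts on the
cohomologically trivial cycles `L = Ch^i(𝒳)_0`, on their restrictions `W = Ch^i(X)_0` to the generic fibre
and on the cycles `F = Ch^(d+1-i)_fin(𝒳)` in closed fibres (all with rational coefficients); the restriction
`L → W` is surjective and equivariant, and the pairing of `L` and `F` is invariant. These are the data. The
question is whether every element of `W` has a lift to `L` which is orthogonal to `F`.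

For a subgroup `H` let `Q(H)` be the statement of the question for the quotient by `H`, that is: every
element of `W` fixed by `H` has a lift fixed by `H` and orthogonal to the elements of `F` fixed by `H`
(the rational Chow groups of a quotient by a finite group are the invariants). We show:

1. `Q(H)` is true if and only if no irreducible rational representation of `G` which occurs in `W` modulo
   the elements with orthogonal lifts has a nonzero vector fixed by `H`.
2. A representation `V` which occurs in `W` modulo these elements occurs in the fibral cycles: there is a
   nonzero invariant bilinear map `V × F → ℝ`.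
3. If `N` acts trivially on `F`, then the answer for `𝒳` is positive if and only if `Q(N)` is true, and
   `Q(H)` is equivalent to `Q(H N)`, where `H N` is the subgroup generated by `H` and `N`.
4. If `c` is an involution, then the answer for `𝒳` is positive if and only if `Q` is true for `c` and
   `[G,c]`; if `c` is contained in a nonabelian simple subgroup, if and only if for `c`; if a subgroup is
   partitioned into subgroups, at least two, if and only if for all of these; if `G` is commutative, if and
   only if for all `K` with `G/K` cyclic.
5. If the answer is negative for `𝒳`, but `Q(H)` is true for all `H` of prime order, then an irreducible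
   rational representation, in which the elements different from one fix only `0`, occurs in `W` modulo the
   elements with orthogonal lifts and in `F`, the commutative subgroups and the subgroups of order `p q` of
   `G` are cyclic, and `G` has at most one involution.

The group theoretic criteria in 4 and 5 are from the library (`X252`, `X328`).
-/

open Pool.Agent.X252.GA Pool.Agent.X252.SCT Pool.Agent.U227.Grp Pool.Agent.U227.Mdl

universe w

namespace Pool.Agent.Results.MP_62d77c_ag.GroupActionsOnModels

/-- **Lifts orthogonal to fibral cycles on regular models with a group action.** -/
theorem result {G : Type} [Group G] [Finite G] {L W F : Type w} [AddCommGroup L] [Module ℚ L]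
    [AddCommGroup W] [Module ℚ W] [AddCommGroup F] [Module ℚ F] (D : Model G L W F) :
    (∀ H : Subgroup G, D.LiftsOn H ↔
      ∀ (V : Type) [AddCommGroup V] [Module ℚ V] (ρ : G →* Module.End ℚ V), Irred ρ →
        D.Obstructs ρ → ¬ HasFixed ρ H) ∧
    (∀ (V : Type) [AddCommGroup V] [Module ℚ V] (ρ : G →* Module.End ℚ V),
      D.Obstructs ρ → D.PairsWithFibres ρ) ∧
    (∀ N : Subgroup G, (∀ g ∈ N, ∀ y : F, D.actF g y = y) →
      (D.AllLift ↔ D.LiftsOn N) ∧ ∀ H : Subgroup G, D.LiftsOn H ↔ D.LiftsOn (H ⊔ N)) ∧
    QuotientLaws D.AllLift D.LiftsOn ∧
    (¬ D.AllLift → AtPrimes D.LiftsOn →
      (∃ (V : Type) (_ : AddCommGroup V) (_ : Module ℚ V) (ρ : G →* Module.End ℚ V),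
        IsFree ρ ∧ D.Obstructs ρ ∧ D.PairsWithFibres ρ) ∧ CyclicSubgroups G) := by
  have : Fintype G := Fintype.ofFinite G
  exact D.lifts

end Pool.Agent.Results.MP_62d77c_ag.GroupActionsOnModels
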