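import Mathlib

/-!
# Cycles with orthogonal lifts: correspondences and potentially good reduction

`E` is a number field, `𝓞` its ring of integers. A model is a regular scheme `𝒳`, proper and flat over
`Spec 𝓞`, with smooth generic fibre `𝒳_E` (`Model E`, honest schemes of Mathlib); `Var E` is the category
of smooth proper schemes over `E`. The Chow groups with rational coefficients of models and of smooth
proper `E`-schemes, the cycle class map, and the pairing of Gillet and Soulé between the classes which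
are homologically trivial on the generic fibre and the fibral classes (those which vanish on the
generic fibre) enter through their formal properties (`IsArithChow`):

* commutative rings with pull-backs (ring homomorphisms) and push-forwards, the projection formula;
  restriction to the generic fibre is a surjective ring homomorphism compatible with them; pull-backs
  and push-forwards preserve homological triviality;
* the pairing is additive and homogeneous in the first variable, `(a c, w) = (c, a w)`,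
  `(f_* c, w) = (c, f^* w)` and `(f^* c, w) = (c, f_* w)`;
* alterations (de Jong): for a smooth proper `E`-scheme `Z` with morphisms `p`, `q` to the generic
  fibres of models `𝒳`, `𝒴` there are a model `𝒵` and a morphism `a : 𝒵_E → Z` of non-zero degree such
  that `p ∘ a` and `q ∘ a` extend to morphisms `𝒵 → 𝒳`, `𝒵 → 𝒴`;
* if a model `𝒴` is smooth over the ring of integers of a finite extension of `E`, homologically trivial
  classes are orthogonal to fibral ones (smooth and proper base change).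

A homologically trivial class on `𝒳_E` has an orthogonal lift if it is the restriction of a class on
`𝒳` orthogonal to all fibral classes. Q1 for `𝒳` (all `i`) says that all of them have orthogonal lifts.
We prove:

1. the classes with orthogonal lifts form an ideal of `Ch(𝒳_E)`;
2. they are stable under all correspondences `x ↦ q_* (b · p^* x)`, where `p : Z → 𝒳_E`, `q : Z → 𝒴_E`
   are morphisms of smooth proper `E`-schemes, `b ∈ Ch(Z)`, and `𝒴` is any model; in particular under
   all pull-backs and push-forwards between generic fibres of models, without any relation between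
   the models;
3. so Q1 depends only on the generic fibre: if `𝒳_E ≅ 𝒴_E`, Q1 holds for `𝒳` if and only if it holds
   for `𝒴`; and it passes from `𝒴` to `𝒳` if there is a morphism `f : 𝒴_E → 𝒳_E` with `f_* b = 1` for
   some class `b` (that is, `f` is surjective);
4. Q1 holds for `𝒳` if the homologically trivial classes on `𝒳_E` are sums of classes
   `q_* (b · p^* y)` with `y` a homologically trivial class on the generic fibre of a model which is
   smooth over the ring of integers of some finite extension of `E`.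

Since the motive of an abelian variety with complex multiplication is of potentially good reduction,
4 applies for example to all regular models of Fermat hypersurfaces of all degrees and dimensions
and of products of Fermat curves, although these do not have potentially good reduction in general.
-/

open CategoryTheory AlgebraicGeometry NumberField

set_option autoImplicit false

noncomputable section

namespace Pool.Agent.Results.MP_62d77c_ag.LiftableClasses

universe u v w

variable (E : Type) [Field E]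

/-- `X` is smooth and proper over `E`. -/
def IsVar : ObjectProperty (Over (Spec (CommRingCat.of E))) :=
  fun X => IsProper X.hom ∧ Smooth X.hom

/-- The smooth proper schemes over `E`. -/
def Var : Type 1 := (IsVar E).FullSubcategory

/-- They form a category (morphisms over `E`). -/
instance Var.category : Category.{0} (Var E) := inferInstanceAs (Category (IsVar E).FullSubcategory)

/-- The generic fibre of a scheme over `Spec 𝓞`. -/
def generic : Over (Spec (CommRingCat.of (𝓞 E))) ⥤ Over (Spec (CommRingCat.of E)) :=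
  Over.pullback (Spec.map (CommRingCat.ofHom (algebraMap (𝓞 E) E)))

/-- `X` is a regular scheme, proper and flat over `Spec 𝓞`, with smooth proper generic fibre. -/
def IsModel : ObjectProperty (Over (Spec (CommRingCat.of (𝓞 E)))) := fun X =>
  IsProper X.hom ∧ Flat X.hom ∧ (∀ x : X.left, IsRegularLocalRing (X.left.presheaf.stalk x)) ∧
    IsVar E ((generic E).obj X)

/-- The models. -/
def Model : Type 1 := (IsModel E).FullSubcategory

/-- They form a category (morphisms over `Spec 𝓞`). -/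
instance Model.category : Category.{0} (Model E) :=
  inferInstanceAs (Category (IsModel E).FullSubcategory)

/-- The generic fibre of a model. -/
def genFibre : Model E ⥤ Var E :=
  (IsVar E).lift ((IsModel E).ι ⋙ generic E) (fun X => X.property.2.2.2)

/-- The structure morphism of a model. -/
def Model.str {E : Type} [Field E] (𝒳 : Model E) :
    ((IsModel E).ι.obj 𝒳).left ⟶ Spec (CommRingCat.of (𝓞 E)) := ((IsModel E).ι.obj 𝒳).hom

/-- Commutative `ℚ`-algebras `A(X)` with pull-backs `f^*` and push-forwards `f_*` on a category. -/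
structure PullPush (𝒞 : Type u) [Category.{v} 𝒞] where
  /-- the algebras -/
  A : 𝒞 → Type w
  [ring : ∀ X, CommRing (A X)]
  [algebra : ∀ X, Algebra ℚ (A X)]
  /-- pull-back -/
  pull : ∀ {X Y : 𝒞}, (X ⟶ Y) → (A Y →ₐ[ℚ] A X)
  /-- push-forward -/
  push : ∀ {X Y : 𝒞}, (X ⟶ Y) → (A X →ₗ[ℚ] A Y)

attribute [instance] PullPush.ring PullPush.algebra

namespace PullPush

variable {𝒞 : Type u} [Category.{v} 𝒞] (T : PullPush.{u, v, w} 𝒞) {X Y : 𝒞}

/-- The pull-back `f^* b`. -/
abbrev up (f : X ⟶ Y) (b : T.A Y) : T.A X := T.pull f b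

/-- The push-forward `f_* a`. -/
abbrev down (f : X ⟶ Y) (a : T.A X) : T.A Y := T.push f a

/-- The product `a b`. -/
abbrev mul (a b : T.A X) : T.A X := a * b

end PullPush

/-- Pull-backs and push-forwards are functorial and satisfy the projection formula. -/
structure PullPush.IsTheory {𝒞 : Type u} [Category.{v} 𝒞] (T : PullPush.{u, v, w} 𝒞) : Prop where
  pull_id : ∀ {X : 𝒞} (a : T.A X), T.up (𝟙 X) a = a
  pull_comp : ∀ {X Y Z : 𝒞} (f : X ⟶ Y) (g : Y ⟶ Z) (a : T.A Z),
    T.up (f ≫ g) a = T.up f (T.up g a)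
  push_id : ∀ {X : 𝒞} (a : T.A X), T.down (𝟙 X) a = a
  push_comp : ∀ {X Y Z : 𝒞} (f : X ⟶ Y) (g : Y ⟶ Z) (a : T.A X),
    T.down (f ≫ g) a = T.down g (T.down f a)
  proj : ∀ {X Y : 𝒞} (f : X ⟶ Y) (a : T.A X) (b : T.A Y),
    T.down f (T.mul a (T.up f b)) = T.mul (T.down f a) b

/-- The generic fibre of the model `𝒳`. -/
def Model.fibre {E : Type} [Field E] (𝒳 : Model E) : Var E := (genFibre E).obj 𝒳

/-- The morphism of generic fibres induced by a morphism of models. -/
def fibreMap {E : Type} [Field E] {𝒳 𝒴 : Model E} (f : 𝒳 ⟶ 𝒴) : 𝒳.fibre ⟶ 𝒴.fibre :=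
  (genFibre E).map f

/-- The data: Chow rings `mod.A 𝒳` of models and `var.A X` of smooth proper `E`-schemes, restriction
`res` to the generic fibre, the cycle class map `cl`, and the pairing `pair` (of Gillet and Soulé,
defined on the classes homologically trivial on the generic fibre and the fibral classes, all
codimensions together; its other values do not matter). -/
structure ArithChow where
  /-- Chow rings of models -/
  mod : PullPush.{1, 0, w} (Model E)
  /-- Chow rings of smooth proper schemes over `E` -/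
  var : PullPush.{1, 0, w} (Var E)
  /-- restriction to the generic fibre -/
  res : ∀ 𝒳 : Model E, mod.A 𝒳 →ₐ[ℚ] var.A 𝒳.fibre
  /-- cohomology -/
  H : Var E → Type w
  [hRing : ∀ X, Ring (H X)]
  /-- the cycle class map -/
  cl : ∀ X : Var E, var.A X →+* H X
  /-- the pairing -/
  pair : ∀ 𝒳 : Model E, mod.A 𝒳 → mod.A 𝒳 → ℝ

attribute [instance] ArithChow.hRing

variable {E}

namespace ArithChow

variable (T : ArithChow.{w} E)

/-- The Chow ring of the generic fibre of the model `𝒳`. -/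
abbrev Ch (𝒳 : Model E) : Type w := T.var.A 𝒳.fibre

/-- The restriction of `c` to the generic fibre. -/
abbrev restrict {𝒳 : Model E} (c : T.mod.A 𝒳) : T.Ch 𝒳 := T.res 𝒳 c

/-- The class `x` is homologically trivial. -/
def HomTriv {X : Var E} (x : T.var.A X) : Prop := T.cl X x = 0

/-- The class `c` on the model `𝒳` is homologically trivial on the generic fibre. -/
def Triv {𝒳 : Model E} (c : T.mod.A 𝒳) : Prop := T.HomTriv (T.restrict c)

/-- The class `w` on the model `𝒳` is fibral: it vanishes on the generic fibre. -/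
def Fibral {𝒳 : Model E} (w : T.mod.A 𝒳) : Prop := T.restrict w = 0

/-- The class `x` on the generic fibre of `𝒳` is homologically trivial and has an orthogonal lift: a
class on `𝒳` restricting to `x` and orthogonal to all fibral classes. -/
def OrthLift (𝒳 : Model E) (x : T.Ch 𝒳) : Prop :=
  T.HomTriv x ∧ ∃ c : T.mod.A 𝒳, T.restrict c = x ∧ ∀ w, T.Fibral w → T.pair 𝒳 c w = 0

/-- Q1 for the model `𝒳`: all homologically trivial classes on the generic fibre have orthogonal
lifts. -/
def Q1 (𝒳 : Model E) : Prop := ∀ x : T.Ch 𝒳, T.HomTriv x → T.OrthLift 𝒳 x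

/-- The correspondence `x ↦ q_* (b · p^* x)`. -/
def corr {X Y Z : Var E} (p : Z ⟶ X) (q : Z ⟶ Y) (b : T.var.A Z) (x : T.var.A X) : T.var.A Y :=
  T.var.down q (T.var.mul b (T.var.up p x))

/-- Restriction to the generic fibre is onto and compatible with pull-backs and push-forwards. -/
structure IsRestriction : Prop where
  res_surj : ∀ {𝒳 : Model E} (x : T.Ch 𝒳), ∃ c : T.mod.A 𝒳, T.restrict c = x
  res_pull : ∀ {𝒳 𝒴 : Model E} (f : 𝒳 ⟶ 𝒴) (y : T.mod.A 𝒴),
    T.restrict (T.mod.up f y) = T.var.up (fibreMap f) (T.restrict y)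
  res_push : ∀ {𝒳 𝒴 : Model E} (f : 𝒳 ⟶ 𝒴) (x : T.mod.A 𝒳),
    T.restrict (T.mod.down f x) = T.var.down (fibreMap f) (T.restrict x)

/-- Pull-backs and push-forwards preserve homological triviality. -/
structure IsNatural : Prop where
  cl_pull : ∀ {X Y : Var E} (f : X ⟶ Y) (y : T.var.A Y), T.HomTriv y → T.HomTriv (T.var.up f y)
  cl_push : ∀ {X Y : Var E} (f : X ⟶ Y) (x : T.var.A X), T.HomTriv x → T.HomTriv (T.var.down f x)

/-- The pairing of homologically trivial classes `c` and fibral classes `w`: it is additive and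
homogeneous in `c`, and `(a c, w) = (c, a w)`. -/
structure IsPairing : Prop where
  pair_add : ∀ {𝒳 : Model E} (c c' w : T.mod.A 𝒳), T.Triv c → T.Triv c' → T.Fibral w →
    T.pair 𝒳 (c + c') w = T.pair 𝒳 c w + T.pair 𝒳 c' w
  pair_smul : ∀ {𝒳 : Model E} (r : ℚ) (c w : T.mod.A 𝒳), T.Triv c → T.Fibral w →
    T.pair 𝒳 (r • c) w = r * T.pair 𝒳 c w
  pair_mul : ∀ {𝒳 : Model E} (a c w : T.mod.A 𝒳), T.Triv c → T.Fibral w →
    T.pair 𝒳 (T.mod.mul a c) w = T.pair 𝒳 c (T.mod.mul a w)

/-- The pairing and morphisms of models: `(f_* c, w) = (c, f^* w)` and `(f^* c, w) = (c, f_* w)`. -/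
structure IsAdjoint : Prop where
  pair_push : ∀ {𝒳 𝒴 : Model E} (f : 𝒳 ⟶ 𝒴) (c : T.mod.A 𝒳) (w : T.mod.A 𝒴), T.Triv c →
    T.Fibral w → T.pair 𝒴 (T.mod.down f c) w = T.pair 𝒳 c (T.mod.up f w)
  pair_pull : ∀ {𝒳 𝒴 : Model E} (f : 𝒳 ⟶ 𝒴) (c : T.mod.A 𝒴) (w : T.mod.A 𝒳), T.Triv c →
    T.Fibral w → T.pair 𝒳 (T.mod.up f c) w = T.pair 𝒴 c (T.mod.down f w)

/-- Alterations (de Jong): for a smooth proper `E`-scheme `Z` with morphisms `p`, `q` to the generic
fibres of models `𝒳`, `𝒴` there are a model `𝒵` and a morphism `a : 𝒵_E → Z` of degree `N ≠ 0` such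
that `p ∘ a` and `q ∘ a` extend to the models. -/
def HasAlterations : Prop :=
  ∀ (𝒳 𝒴 : Model E) (Z : Var E) (p : Z ⟶ 𝒳.fibre) (q : Z ⟶ 𝒴.fibre),
    ∃ (𝒵 : Model E) (a : 𝒵.fibre ⟶ Z) (P : 𝒵 ⟶ 𝒳) (Q : 𝒵 ⟶ 𝒴) (N : ℚ), N ≠ 0 ∧
      fibreMap P = a ≫ p ∧ fibreMap Q = a ≫ q ∧ T.var.down a 1 = N • 1

end ArithChow

/-- The model `𝒴` is smooth over the ring of integers of a finite extension `E'` of `E`. -/
def SmoothOverExtension (𝒴 : Model E) : Prop :=
  ∃ (E' : Type) (_ : Field E') (_ : NumberField E') (_ : Algebra E E')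
    (g : ((IsModel E).ι.obj 𝒴).left ⟶ Spec (CommRingCat.of (𝓞 E'))), Smooth g ∧
      g ≫ Spec.map (CommRingCat.ofHom (algebraMap (𝓞 E) (𝓞 E'))) = 𝒴.str

/-- The formal properties of Chow groups with rational coefficients, of the cycle class map and of
the Gillet-Soulé pairing, de Jong's theorem on alterations, and the orthogonality of homologically
trivial and fibral classes on smooth models. -/
structure IsArithChow (T : ArithChow.{w} E) : Prop where
  mod : T.mod.IsTheory
  var : T.var.IsTheory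
  restriction : T.IsRestriction
  natural : T.IsNatural
  pairing : T.IsPairing
  adjoint : T.IsAdjoint
  alteration : T.HasAlterations
  smooth : ∀ 𝒴 : Model E, SmoothOverExtension 𝒴 → ∀ c w : T.mod.A 𝒴, T.Triv c →
    T.Fibral w → T.pair 𝒴 c w = 0

/-- `x` is a correspondence image `q_* (b · p^* y)` of a homologically trivial class `y` on the generic
fibre of a model `𝒴` smooth over the ring of integers of a finite extension of `E`. -/
def FromSmooth (T : ArithChow.{w} E) (X : Var E) (x : T.var.A X) : Prop :=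
  ∃ (𝒴 : Model E) (Z : Var E) (p : Z ⟶ 𝒴.fibre) (q : Z ⟶ X) (b : T.var.A Z) (y : T.Ch 𝒴),
    SmoothOverExtension 𝒴 ∧ T.HomTriv y ∧ x = T.corr p q b y

/-- The classes on the generic fibre of `𝒳` with orthogonal lifts form an ideal. -/
def LiftsFormIdeal (T : ArithChow.{w} E) (𝒳 : Model E) : Prop :=
  ∃ I : Ideal (T.Ch 𝒳), ∀ x, x ∈ I ↔ T.OrthLift 𝒳 x

/-- Correspondences between the generic fibres of arbitrary models preserve the classes with
orthogonal lifts. -/
def StableUnderCorrespondences (T : ArithChow.{w} E) : Prop :=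
  ∀ (𝒳 𝒴 : Model E) (Z : Var E) (p : Z ⟶ 𝒳.fibre) (q : Z ⟶ 𝒴.fibre) (b : T.var.A Z) (x : T.Ch 𝒳),
    T.OrthLift 𝒳 x → T.OrthLift 𝒴 (T.corr p q b x)

/-- All homologically trivial classes on the generic fibre of `𝒳` are sums of classes as in
`FromSmooth`. -/
def GeneratedBySmooth (T : ArithChow.{w} E) (𝒳 : Model E) : Prop :=
  ∀ x : T.Ch 𝒳, T.HomTriv x → x ∈ AddSubmonoid.closure {z | FromSmooth T 𝒳.fibre z}

section proofs

variable {T : ArithChow.{w} E} (hT : IsArithChow T)

include hT

lemma res_pull {𝒳 𝒴 : Model E} (f : 𝒳 ⟶ 𝒴) (y : T.mod.A 𝒴) :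
    T.res 𝒳 (T.mod.pull f y) = T.var.pull (fibreMap f) (T.res 𝒴 y) := hT.restriction.res_pull f y

lemma res_push {𝒳 𝒴 : Model E} (f : 𝒳 ⟶ 𝒴) (x : T.mod.A 𝒳) :
    T.res 𝒴 (T.mod.push f x) = T.var.push (fibreMap f) (T.res 𝒳 x) := hT.restriction.res_push f x

lemma cl_pull {X Y : Var E} (f : X ⟶ Y) (y : T.var.A Y) (h : T.cl Y y = 0) :
    T.cl X (T.var.pull f y) = 0 := hT.natural.cl_pull f y h

lemma cl_push {X Y : Var E} (f : X ⟶ Y) (x : T.var.A X) (h : T.cl X x = 0) :
    T.cl Y (T.var.push f x) = 0 := hT.natural.cl_push f x h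

lemma vproj {X Y : Var E} (f : X ⟶ Y) (a : T.var.A X) (b : T.var.A Y) :
    T.var.push f (a * T.var.pull f b) = T.var.push f a * b := hT.var.proj f a b

omit hT in
lemma triv_iff {𝒳 : Model E} (c : T.mod.A 𝒳) : T.Triv c ↔ T.cl _ (T.res 𝒳 c) = 0 := Iff.rfl

omit hT in
lemma fibral_iff {𝒳 : Model E} (c : T.mod.A 𝒳) : T.Fibral c ↔ T.res 𝒳 c = 0 := Iff.rfl

lemma triv_pull {𝒳 𝒴 : Model E} (f : 𝒳 ⟶ 𝒴) {c : T.mod.A 𝒴} (hc : T.Triv c) :
    T.Triv (T.mod.pull f c) := by
  rw [triv_iff] at *
  rw [res_pull hT]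
  exact cl_pull hT _ _ hc

omit hT in
lemma triv_mul {𝒳 : Model E} (a : T.mod.A 𝒳) {c : T.mod.A 𝒳} (hc : T.Triv c) :
    T.Triv (a * c) := by
  rw [triv_iff] at *
  rw [map_mul, map_mul, hc, mul_zero]

lemma triv_push {𝒳 𝒴 : Model E} (f : 𝒳 ⟶ 𝒴) {c : T.mod.A 𝒳} (hc : T.Triv c) :
    T.Triv (T.mod.push f c) := by
  rw [triv_iff] at *
  rw [res_push hT]
  exact cl_push hT _ _ hc

lemma fibral_pull {𝒳 𝒴 : Model E} (f : 𝒳 ⟶ 𝒴) {w : T.mod.A 𝒴} (hw : T.Fibral w) :
    T.Fibral (T.mod.pull f w) := by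
  rw [fibral_iff] at *
  rw [res_pull hT, hw, map_zero]

lemma fibral_push {𝒳 𝒴 : Model E} (f : 𝒳 ⟶ 𝒴) {w : T.mod.A 𝒳} (hw : T.Fibral w) :
    T.Fibral (T.mod.push f w) := by
  rw [fibral_iff] at *
  rw [res_push hT, hw, map_zero]

omit hT in
lemma fibral_mul {𝒳 : Model E} (a : T.mod.A 𝒳) {w : T.mod.A 𝒳} (hw : T.Fibral w) :
    T.Fibral (a * w) := by
  rw [fibral_iff] at *
  rw [map_mul, hw, mul_zero]

/-- Correspondences preserve orthogonal lifts. -/
lemma orthLift_corr {𝒳 𝒴 : Model E} {Z : Var E} (p : Z ⟶ 𝒳.fibre) (q : Z ⟶ 𝒴.fibre)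
    (b : T.var.A Z) {x : T.Ch 𝒳} (hx : T.OrthLift 𝒳 x) : T.OrthLift 𝒴 (T.corr p q b x) := by
  obtain ⟨hx0, c, hc, horth⟩ := hx
  have hc' : T.res 𝒳 c = x := hc
  have hcl : T.cl _ (T.var.push q (b * T.var.pull p x)) = 0 := by
    apply cl_push hT
    rw [map_mul, cl_pull hT p x hx0, mul_zero]
  refine ⟨hcl, ?_⟩
  obtain ⟨𝒵, a, P, Q, N, hN, hP, hQ, ha⟩ := hT.alteration 𝒳 𝒴 Z p q
  obtain ⟨b', hb'⟩ := hT.restriction.res_surj (T.var.pull a b)
  have hb'' : T.res 𝒵 b' = T.var.pull a b := hb'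
  have ha' : T.var.push a 1 = N • 1 := ha
  have hct : T.Triv c := by rw [triv_iff, hc']; exact hx0
  have h1 : T.Triv (b' * T.mod.pull P c) := triv_mul _ (triv_pull hT P hct)
  have hpc : ∀ z, T.var.pull (a ≫ p) z = T.var.pull a (T.var.pull p z) := hT.var.pull_comp a p
  have hqc : ∀ z, T.var.push (a ≫ q) z = T.var.push q (T.var.push a z) := hT.var.push_comp a q
  refine ⟨N⁻¹ • T.mod.push Q (b' * T.mod.pull P c), ?_, ?_⟩
  · change T.res 𝒴 (N⁻¹ • T.mod.push Q (b' * T.mod.pull P c)) =
      T.var.push q (b * T.var.pull p x)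
    rw [map_smul, res_push hT, map_mul, hb'', res_pull hT, hc', hP, hQ, hpc, ← map_mul, hqc]
    have h2 : T.var.push a (T.var.pull a (b * T.var.pull p x)) = N • (b * T.var.pull p x) := by
      have h3 := vproj hT a 1 (b * T.var.pull p x)
      rw [one_mul, ha', smul_mul_assoc, one_mul] at h3
      exact h3
    rw [h2, map_smul, smul_smul, inv_mul_cancel₀ hN, one_smul]
  · intro w hw
    have e1 := hT.adjoint.pair_push Q (b' * T.mod.pull P c) w h1 hw
    have e2 := hT.pairing.pair_mul b' (T.mod.pull P c) (T.mod.pull Q w) (triv_pull hT P hct)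
      (fibral_pull hT Q hw)
    have e3 := hT.adjoint.pair_pull P c (b' * T.mod.pull Q w) hct
      (fibral_mul _ (fibral_pull hT Q hw))
    have e4 := horth _ (fibral_push hT P (fibral_mul b' (fibral_pull hT Q hw)))
    rw [hT.pairing.pair_smul _ _ _ (triv_push hT Q h1) hw]
    have e5 : T.pair 𝒴 (T.mod.push Q (b' * T.mod.pull P c)) w = 0 :=
      e1.trans (e2.trans (e3.trans e4))
    rw [e5, mul_zero]

lemma orthLift_zero (𝒳 : Model E) : T.OrthLift 𝒳 0 := by
  have ht : T.Triv (0 : T.mod.A 𝒳) := by rw [triv_iff, map_zero, map_zero]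
  refine ⟨map_zero (T.cl 𝒳.fibre), 0, map_zero (T.res 𝒳), fun w hw => ?_⟩
  have h := hT.pairing.pair_smul 0 0 w ht hw
  rw [smul_zero] at h
  rw [h]
  push_cast
  ring

lemma orthLift_add {𝒳 : Model E} {x y : T.Ch 𝒳} (hx : T.OrthLift 𝒳 x) (hy : T.OrthLift 𝒳 y) :
    T.OrthLift 𝒳 (x + y) := by
  obtain ⟨hx0, c, hc, h1⟩ := hx
  obtain ⟨hy0, d, hd, h2⟩ := hy
  have hx0' : T.cl _ x = 0 := hx0
  have hy0' : T.cl _ y = 0 := hy0
  have hc' : T.res 𝒳 c = x := hc
  have hd' : T.res 𝒳 d = y := hd
  refine ⟨?_, c + d, ?_, fun w hw => ?_⟩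
  · change T.cl _ (x + y) = 0
    rw [map_add, hx0', hy0', add_zero]
  · change T.res 𝒳 (c + d) = x + y
    rw [map_add, hc', hd']
  · rw [hT.pairing.pair_add c d w (by rw [triv_iff, hc', hx0']) (by rw [triv_iff, hd', hy0']) hw,
      h1 w hw, h2 w hw, add_zero]

lemma orthLift_mul {𝒳 : Model E} (a : T.Ch 𝒳) {x : T.Ch 𝒳} (hx : T.OrthLift 𝒳 x) :
    T.OrthLift 𝒳 (a * x) := by
  have h := orthLift_corr hT (𝟙 _) (𝟙 _) a hx
  have e : T.corr (𝟙 𝒳.fibre) (𝟙 𝒳.fibre) a x = a * x := by
    change T.var.down (𝟙 _) (T.var.mul a (T.var.up (𝟙 _) x)) = a * x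
    rw [hT.var.pull_id, hT.var.push_id]
  rwa [e] at h

lemma orthLift_pull {𝒳 𝒴 : Model E} (f : 𝒴.fibre ⟶ 𝒳.fibre) {x : T.Ch 𝒳}
    (hx : T.OrthLift 𝒳 x) : T.OrthLift 𝒴 (T.var.pull f x) := by
  have h := orthLift_corr hT f (𝟙 _) 1 hx
  have e : T.corr f (𝟙 𝒴.fibre) 1 x = T.var.pull f x := by
    change T.var.down (𝟙 _) (1 * T.var.up f x) = T.var.up f x
    rw [one_mul, hT.var.push_id]
  rwa [e] at h

lemma orthLift_push {𝒳 𝒴 : Model E} (f : 𝒳.fibre ⟶ 𝒴.fibre) {x : T.Ch 𝒳}
    (hx : T.OrthLift 𝒳 x) : T.OrthLift 𝒴 (T.var.push f x) := by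
  have h := orthLift_corr hT (𝟙 _) f 1 hx
  have e : T.corr (𝟙 𝒳.fibre) f 1 x = T.var.push f x := by
    change T.var.down f (1 * T.var.up (𝟙 _) x) = T.var.down f x
    rw [one_mul, hT.var.pull_id]
  rwa [e] at h

lemma q1_dominated {𝒳 𝒴 : Model E} (f : 𝒴.fibre ⟶ 𝒳.fibre) (b : T.Ch 𝒴)
    (hb : T.var.push f b = 1) (h : T.Q1 𝒴) : T.Q1 𝒳 := by
  intro x hx
  have h1 := orthLift_push hT f (orthLift_mul hT b (h (T.var.pull f x) (cl_pull hT f x hx)))
  rwa [vproj hT, hb, one_mul] at h1

lemma q1_iso {𝒳 𝒴 : Model E} (e : 𝒳.fibre ≅ 𝒴.fibre) (h : T.Q1 𝒴) : T.Q1 𝒳 := by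
  intro x hx
  have h1 := orthLift_pull hT e.hom (h (T.var.pull e.inv x) (cl_pull hT e.inv x hx))
  have e1 : T.var.pull e.hom (T.var.pull e.inv x) = x := by
    have e2 : T.var.pull (e.hom ≫ e.inv) x = T.var.pull e.hom (T.var.pull e.inv x) :=
      hT.var.pull_comp e.hom e.inv x
    rw [← e2, e.hom_inv_id]
    exact hT.var.pull_id x
  rwa [e1] at h1

end proofs

/-- **Classes with orthogonal lifts.** They form an ideal, are stable under correspondences between
the generic fibres of arbitrary models, Q1 depends only on the generic fibre, passes to varieties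
dominated by a variety with Q1, and holds for all models of varieties whose homologically trivial
classes come by correspondences from varieties with potentially good reduction. -/
theorem result [NumberField E] (T : ArithChow.{w} E) (hT : IsArithChow T) :
    (∀ 𝒳 : Model E, LiftsFormIdeal T 𝒳) ∧ StableUnderCorrespondences T ∧
    (∀ 𝒳 𝒴 : Model E, Nonempty (𝒳.fibre ≅ 𝒴.fibre) → (T.Q1 𝒳 ↔ T.Q1 𝒴)) ∧
    (∀ (𝒳 𝒴 : Model E) (f : 𝒴.fibre ⟶ 𝒳.fibre) (b : T.Ch 𝒴), T.var.down f b = 1 →
      T.Q1 𝒴 → T.Q1 𝒳) ∧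
    (∀ 𝒳 : Model E, GeneratedBySmooth T 𝒳 → T.Q1 𝒳) := by
  refine ⟨fun 𝒳 => ?_, fun 𝒳 𝒴 Z p q b x hx => orthLift_corr hT p q b hx, ?_,
    fun 𝒳 𝒴 f b hb h => q1_dominated hT f b hb h, ?_⟩
  · exact ⟨{ carrier := {x | T.OrthLift 𝒳 x}
             add_mem' := fun hx hy => orthLift_add hT hx hy
             zero_mem' := orthLift_zero hT 𝒳
             smul_mem' := fun a x hx => orthLift_mul hT a hx }, fun x => Iff.rfl⟩
  · rintro 𝒳 𝒴 ⟨e⟩
    exact ⟨q1_iso hT e.symm, q1_iso hT e⟩
  · intro 𝒳 h x hx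
    refine AddSubmonoid.closure_induction (motive := fun z _ => T.OrthLift 𝒳 z) ?_
      (orthLift_zero hT 𝒳) (fun y z _ _ hy hz => orthLift_add hT hy hz) (h x hx)
    rintro z ⟨𝒴, Z, p, q, b, y, hs, hy, rfl⟩
    refine orthLift_corr hT p q b ⟨hy, ?_⟩
    obtain ⟨c, hc⟩ := hT.restriction.res_surj y
    have hc' : T.res 𝒴 c = y := hc
    exact ⟨c, hc, fun w hw => hT.smooth 𝒴 hs c w (by rw [triv_iff, hc']; exact hy) hw⟩

end Pool.Agent.Results.MP_62d77c_ag.LiftableClasses
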