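import Pool.Agent.U724.CH.Obs

/-!
# MP_62d77c_ag: the growth of the obstruction to orthogonal lifts, and simple motives

Let `E` be a number field. For a smooth proper variety `X` over `E` let `L (X)` be the space of the
homologically trivial cycles on `X` (all codimensions, rational coefficients, modulo rational equivalence)
which have a lift to a regular model orthogonal to the fibral cycles. The family `L` is stable under
correspondences (MP_62d77c_ag.LiftableClasses; alterations), and the conjecture of the problem for `X` is
`L (X) = CH (X)_hom`. Let `κ (n)` be the dimension of the obstruction space `CH (X ^ n)_hom / L (X ^ n)`,
a number or infinity, and `ρ (n)` the (finite) rank of the group of the cycles on `X ^ n` modulo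
numerical equivalence.

Theorem. Let `X` be a variety with the sign conjecture. Then `κ (n) / ρ (n)` converges to a natural number
`N` or to infinity, and `N = 0` if and only if the conjecture holds for all powers of `X`. Let
`M_1, ..., M_s` be direct summands of motives of powers of `X` which are simple modulo numerical
equivalence and pairwise not isomorphic (up to Tate twists) modulo numerical equivalence, of ranks
`r_1, ..., r_s`. If each of them contains a homologically trivial cycle which is not liftable then
`r_1 + ... + r_s ≤ N`.

So if `N` is finite then the conjecture fails for at most `N` simple motives in the tensor category
generated by `X`, and it holds for those of rank greater than `N`. The motives need not be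
finite-dimensional.

Idea of the proof. The obstruction spaces are the values of an additive functor on the motives, a
quotient of the functor of homologically trivial cycles. If `N` is finite then (library) the products of
`N` numerically trivial correspondences between powers of `X` act as zero on the obstruction spaces. Order
the classes `z_i` of the parts `e_i` by the smallest number `d_i + 1` such that products of `d_i + 1`
numerically trivial correspondences kill `z_i`. If `φ z_j` is a sum of elements `χ_i z_i` with `i < j` then
`φ e_j` is numerically trivial: otherwise there is a correspondence `ψ` with `e_j ψ φ e_j = e_j + y`, with a
numerically trivial `y`, and `z_j` would be killed by the products of `d_j` numerically trivial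
correspondences. So `κ (n)` is at least the sum of the dimensions of the spaces of the correspondences
`φ e_j` modulo numerical equivalence, which are asymptotically `r_j ρ (n)` (library: the asymptotic
multiplicity is the rank).

The setting. The Chow group `Chow X` of a scheme `X` (cycles of all dimensions with rational
coefficients modulo rational equivalence) is defined with the order of vanishing of Mathlib.
Intersection theory enters through the category `C` of Chow motives over `k` with the correspondences
of all degrees as morphisms: a rigid symmetric monoidal category with objects `h (X)` for the varieties
`X` over `k`, self-dual, with `Hom (1, h (X)) = Chow X` and `h (X × Y) = h (X) ⊗ h (Y)` (structure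
`Motives`). `R` is a Weil cohomology with coefficients extended to an algebraically closed field `K`, a
tensor functor from `C` to super vector spaces; `R.CPlus` is the sign conjecture. The liftable cycles are
given by a family `A` of spaces of homologically trivial cycles which is stable under correspondences
(structure `Motives.Liftables`).
-/

set_option autoImplicit false

open CategoryTheory MonoidalCategory Module
open Pool.Agent.Y112.SR Pool.Agent.Y112.KD Pool.Agent.N64.AF
open Pool.Agent.U724.NT Pool.Agent.U724.CH

namespace Pool.Agent.Results.MP_62d77c_ag.ObstructionLaw

universe u u' v w

/-- The law for the homologically trivial cycles on the powers of `X` modulo the liftable ones; the limit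
is at least the sum of the ranks of simple parts of the motives of the powers, pairwise not isomorphic,
which contain homologically trivial cycles which are not liftable. -/
theorem result {k : Type u} [Field k] {C : Type u'} [Category.{v} C] [Preadditive C]
    [MonoidalCategory C] [MonoidalPreadditive C] [SymmetricCategory C] [RightRigidCategory C]
    [Linear ℚ C] [MonoidalLinear ℚ C] (M : Motives k C)
    {K : Type w} [Field K] [IsAlgClosed K] [Algebra ℚ K] (R : SuperRealisation C K)
    (A : M.Liftables R)
    (X : Sch k) (hX : M.IsVar X) (hne : Nonempty X.left) (hs : R.CPlus (M.h X)) :
    ∃ N : ℕ∞, HasLaw ℚ (M.h X) (fun n => dimE ℚ (A.obs (M.isVar_power hX n))) N ∧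
      (N = 0 ↔ ∀ n, A.L (power X n) (M.isVar_power hX n) = M.homTriv R (M.isVar_power hX n)) ∧
      ∀ (s : ℕ) (m r : Fin s → ℕ) (e : ∀ i, Chow (prod (power X (m i)) (power X (m i))).left),
        (∀ i, A.IsObstructed (M.isVar_power hX (m i)) (e i) (r i)) →
        (∀ i j, i ≠ j →
          M.NotIso (M.isVar_power hX (m i)) (M.isVar_power hX (m j)) (e i) (e j)) →
          ((∑ i, r i : ℕ) : ℕ∞) ≤ N :=
  A.law hX hne hs

end Pool.Agent.Results.MP_62d77c_ag.ObstructionLaw
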